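import Mathlib

/-! The fractional Dirichlet problem with a nonlocal gradient-square term: definitions.
`E` is the ambient space (it will be `EuclideanSpace ℝ (Fin N)` with Lebesgue measure), `N` its
dimension, `a` the normalising constant. -/

namespace Pool.Agent.Work.MP_49e099_an

open MeasureTheory Set Filter Topology

variable {E : Type} [NormedAddCommGroup E] [MeasureSpace E]

/-- The fractional Laplacian of `ξ` at `x` is defined as a principal value and equals `v`. -/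
def HasFracLap (N : ℕ) (a s : ℝ) (ξ : E → ℝ) (x : E) (v : ℝ) : Prop :=
  (∀ ε > 0, IntegrableOn (fun y => (ξ x - ξ y) / ‖x - y‖ ^ (N + 2 * s)) {y | ε < ‖x - y‖}) ∧
  Tendsto (fun ε : ℝ => a * ∫ y in {y | ε < ‖x - y‖}, (ξ x - ξ y) / ‖x - y‖ ^ (N + 2 * s))
    (𝓝[>] 0) (𝓝 v)

/-- `ξ` is a test function (class `X_s`) and `g` is its fractional Laplacian on `Ω`. -/
def IsTest (N : ℕ) (a s : ℝ) (Ω : Set E) (ξ g : E → ℝ) : Prop :=
  Continuous ξ ∧ (∀ x, x ∉ closure Ω → ξ x = 0) ∧ (∀ x ∈ Ω, HasFracLap N a s ξ x (g x)) ∧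
  ∃ M, ∀ x ∈ Ω, |g x| ≤ M

/-- The nonlocal gradient-square term `D_s^2(u)(x)`, with values in `[0, ∞]`. -/
noncomputable def Dsq (N : ℕ) (a s : ℝ) (u : E → ℝ) (x : E) : ENNReal :=
  ∫⁻ y, ENNReal.ofReal (a / 2 * ((u x - u y) ^ 2 / ‖x - y‖ ^ (N + 2 * s)))

/-- `u` is a weak solution of `(-Δ)^s u - c u - μ D_s^2(u) = lam f` on `Ω`, `u = 0` off `Ω`. -/
def IsWeakSol (N : ℕ) (a s : ℝ) (Ω : Set E) (c μ f : E → ℝ) (lam : ℝ) (u : E → ℝ) : Prop :=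
  (∀ᵐ x, x ∉ Ω → u x = 0) ∧ IntegrableOn u Ω ∧
  (∀ᵐ x, x ∈ Ω → Dsq N a s u x < ⊤) ∧ IntegrableOn (fun x => (Dsq N a s u x).toReal) Ω ∧
  ∀ ξ g, IsTest N a s Ω ξ g → ∫ x in Ω, u x * g x =
    ∫ x in Ω, (c x * u x + μ x * (Dsq N a s u x).toReal + lam * f x) * ξ x

/-- For this `c`: whenever `μ` is essentially bounded and positive on `Ω`, `f` is integrable and
nonnegative on `Ω` and `lam > 0`, a weak solution `u` vanishes a.e., and then `f` vanishes a.e. on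
`Ω`. -/
def OnlyZero (N : ℕ) (a s : ℝ) (Ω : Set E) (c : E → ℝ) : Prop :=
  ∀ (μ f u : E → ℝ) (lam : ℝ), MemLp μ ⊤ (volume.restrict Ω) → (∀ᵐ x, x ∈ Ω → 0 < μ x) →
    IntegrableOn f Ω → (∀ᵐ x, x ∈ Ω → 0 ≤ f x) → 0 < lam → IsWeakSol N a s Ω c μ f lam u →
    (∀ᵐ x, u x = 0) ∧ ∀ᵐ x, x ∈ Ω → f x = 0

end Pool.Agent.Work.MP_49e099_an
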