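import Mathlib
import Pool.Agent.Work.MP_49e099_an.Defs

-- merged part: Pool.Agent.Work.MP_49e099_an.Ray
section
/-! One-dimensional computation along a ray. -/

namespace Pool.Agent.Work.MP_49e099_an

open MeasureTheory Set Filter Topology

/-- the profile -/
noncomputable def gg (s A v : ℝ) : ℝ := (A + max v 0) * (max v 0) ^ s

/-- the square root in the substitution -/
noncomputable def SS (q b r : ℝ) : ℝ := √(b ^ 2 * r ^ 2 + q * (1 + r ^ 2))

/-- the even part -/
noncomputable def ee (A q b r : ℝ) : ℝ :=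
  A / (1 + r ^ 2) + (q * (1 + r ^ 2) + 4 * b ^ 2 * r ^ 2) / (1 + r ^ 2) ^ 3

/-- the odd part -/
noncomputable def oo (A q b r : ℝ) : ℝ :=
  r * (A / ((1 + r ^ 2) * SS q b r) + (3 * SS q b r + b ^ 2 * r ^ 2 / SS q b r) / (1 + r ^ 2) ^ 3)

theorem psi_lt {q b t u : ℝ} (hq : 0 < q) (ht : 0 < t) (htu : t < u)
    (hu : 0 < q - 2 * b * u - u ^ 2) (hv : 0 < q - 2 * b * t - t ^ 2) :
    t / √(q - 2 * b * t - t ^ 2) < u / √(q - 2 * b * u - u ^ 2) := by
  have hu0 : 0 < u := ht.trans htu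
  rw [div_lt_div_iff₀ (Real.sqrt_pos.2 hv) (Real.sqrt_pos.2 hu)]
  refine lt_of_pow_lt_pow_left₀ 2 (by positivity) ?_
  rw [mul_pow, mul_pow, Real.sq_sqrt hu.le, Real.sq_sqrt hv.le]
  have h1 : 0 < q - 2 * b * u := by linarith only [hu, sq_nonneg u]
  have h2 : 0 < (u - t) * (t * (q - 2 * b * u) + q * u) := by
    have := sub_pos.2 htu
    positivity
  linarith only [h2]

theorem psi_image {q b ε : ℝ} (hq : 0 < q) (hε : 0 < ε) (hv : 0 < q - 2 * b * ε - ε ^ 2) :
    (fun t => t / √(q - 2 * b * t - t ^ 2)) '' {t | ε < t ∧ 0 < q - 2 * b * t - t ^ 2} =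
      Ioi (ε / √(q - 2 * b * ε - ε ^ 2)) := by
  ext r
  refine ⟨?_, fun hr => ?_⟩
  · rintro ⟨t, ⟨h1, h2⟩, rfl⟩
    exact psi_lt hq hε h1 h2 hv
  · have hr0 : 0 < r := lt_trans (div_pos hε (Real.sqrt_pos.2 hv)) hr
    have h0 : 0 ≤ b ^ 2 * r ^ 2 + q * (1 + r ^ 2) := by positivity
    have hS : SS q b r ^ 2 = b ^ 2 * r ^ 2 + q * (1 + r ^ 2) := Real.sq_sqrt h0
    have h1 : b * r < SS q b r := by
      refine lt_of_pow_lt_pow_left₀ 2 (Real.sqrt_nonneg _) ?_
      rw [hS]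
      have : 0 < q * (1 + r ^ 2) := by positivity
      linarith only [this]
    obtain ⟨c, hc⟩ : ∃ c, c = (SS q b r - b * r) / (1 + r ^ 2) := ⟨_, rfl⟩
    have hc0 : 0 < c := hc ▸ div_pos (sub_pos.2 h1) (by positivity)
    have h2 : SS q b r = c * (1 + r ^ 2) + b * r := by rw [hc]; field_simp; ring
    have h3 : q - 2 * b * (r * c) - (r * c) ^ 2 = c ^ 2 := by
      rw [h2] at hS
      have h4 : (1 + r ^ 2) * (q - 2 * b * (r * c) - (r * c) ^ 2 - c ^ 2) = 0 := by nlinarith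
      rcases mul_eq_zero.1 h4 with h | h
      · exact absurd h (by positivity)
      · linarith only [h]
    have h5 : r * c / √(q - 2 * b * (r * c) - (r * c) ^ 2) = r := by
      rw [h3, Real.sqrt_sq hc0.le]; field_simp
    have h6 : 0 < q - 2 * b * (r * c) - (r * c) ^ 2 := by rw [h3]; positivity
    refine ⟨r * c, ⟨?_, h6⟩, h5⟩
    by_contra h
    rcases (not_lt.1 h).lt_or_eq with h | h
    · exact absurd (h5 ▸ psi_lt hq (mul_pos hr0 hc0) h hv h6) (not_lt.2 (le_of_lt hr))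
    · rw [← h, h5] at hr
      exact lt_irrefl r (mem_Ioi.1 hr)

theorem ray {s A q b ε : ℝ} (hs : 0 < s) (hq : 0 < q) (hε : 0 < ε)
    (hv : 0 < q - 2 * b * ε - ε ^ 2) :
    ∫ t in Ioi ε, gg s A (q - 2 * b * t - t ^ 2) * t ^ (-1 - 2 * s) =
      ∫ r in Ioi (ε / √(q - 2 * b * ε - ε ^ 2)), r ^ (-1 - 2 * s) * (ee A q b r - b * oo A q b r) := by
  have hD : MeasurableSet {t : ℝ | ε < t ∧ 0 < q - 2 * b * t - t ^ 2} :=
    (IsOpen.and (isOpen_lt continuous_const continuous_id)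
      (isOpen_lt continuous_const (by fun_prop))).measurableSet
  rw [← psi_image hq hε hv, integral_image_eq_integral_abs_deriv_smul hD
    (f' := fun t => (q - b * t) / √(q - 2 * b * t - t ^ 2) ^ 3)]
  · rw [setIntegral_eq_of_subset_of_forall_sdiff_eq_zero measurableSet_Ioi
      (s := {t : ℝ | ε < t ∧ 0 < q - 2 * b * t - t ^ 2}) (fun t h => h.1)]
    · refine setIntegral_congr_fun hD fun t ⟨h1, h2⟩ => ?_
      have ht : 0 < t := hε.trans h1
      obtain ⟨c, hc⟩ : ∃ c, c = √(q - 2 * b * t - t ^ 2) := ⟨_, rfl⟩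
      have hc0 : 0 < c := hc ▸ Real.sqrt_pos.2 h2
      have h3 : q - 2 * b * t - t ^ 2 = c ^ 2 := by rw [hc, Real.sq_sqrt h2.le]
      have h4 : 0 < q - b * t := by linarith only [hq, h2, sq_nonneg t]
      have hS : SS q b (t / c) = (q - b * t) / c := by
        rw [SS, Real.sqrt_eq_iff_mul_self_eq (by positivity) (by positivity)]
        field_simp
        nlinarith
      have e1 : (t / c) ^ (-1 - 2 * s) = t ^ (-1 - 2 * s) * (c * (c ^ 2) ^ s) := by
        rw [Real.div_rpow ht.le hc0.le, ← Real.rpow_natCast c 2, ← Real.rpow_mul hc0.le,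
          div_eq_mul_inv, ← Real.rpow_neg hc0.le, ← Real.rpow_one_add' hc0.le (by positivity)]
        congr 2
        push_cast
        ring
      simp only [← hc, gg, ee, oo, hS, smul_eq_mul, e1]
      rw [h3, max_eq_left (by positivity), abs_of_pos (by positivity)]
      obtain rfl : q = c ^ 2 + 2 * b * t + t ^ 2 := by linarith only [h3]
      have h5 := h4.ne'
      field_simp
      ring
    · rintro t ⟨h1, h2⟩
      rw [gg, max_eq_right (not_lt.1 fun h => h2 ⟨h1, h⟩), Real.zero_rpow hs.ne']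
      simp
  · rintro t ⟨-, h2⟩
    have h3 : HasDerivAt (fun t => q - 2 * b * t - t ^ 2) (-(2 * b) - 2 * t) t := by
      refine ((((hasDerivAt_id t).const_mul (2 * b)).const_sub q).fun_sub
        (hasDerivAt_pow 2 t)).congr_deriv ?_
      simp
    have h4 := Real.sqrt_pos.2 h2
    refine (((hasDerivAt_id t).div (h3.sqrt h2.ne') h4.ne').congr_deriv ?_).hasDerivWithinAt
    have h5 := Real.sq_sqrt h2.le
    simp only [id]
    generalize √(q - 2 * b * t - t ^ 2) = c at h4 h5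
    field_simp
    nlinarith
  · intro t ⟨h1, h2⟩ u ⟨h3, h4⟩ e
    rcases lt_trichotomy t u with h | h | h
    · exact absurd e (psi_lt hq (hε.trans h1) h h4 h2).ne
    · exact h
    · exact absurd e (psi_lt hq (hε.trans h3) h h2 h4).ne'

end Pool.Agent.Work.MP_49e099_an
end

-- merged part: Pool.Agent.Work.MP_49e099_an.OneD
section
/-! The symmetric second difference along a line. -/

namespace Pool.Agent.Work.MP_49e099_an

open MeasureTheory Set Filter Topology

/-- moments -/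
noncomputable def MM (s : ℝ) (k : ℕ) : ℝ := ∫ r in Ioi (0 : ℝ), r ^ (1 - 2 * s) / (1 + r ^ 2) ^ k

/-- the regular part -/
noncomputable def mm (s A q b r : ℝ) : ℝ := (A + q) * (r ^ (1 - 2 * s) / (1 + r ^ 2) ^ 1) +
  q * (r ^ (1 - 2 * s) / (1 + r ^ 2) ^ 2) - 4 * b ^ 2 * (r ^ (1 - 2 * s) / (1 + r ^ 2) ^ 3)

/-- the truncated second difference -/
noncomputable def JJ (s A q b ε : ℝ) : ℝ := ∫ t in Ioi ε,
  (2 * gg s A q - gg s A (q - 2 * b * t - t ^ 2) - gg s A (q - 2 * -b * t - t ^ 2)) * t ^ (-1 - 2 * s)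

theorem intM {s : ℝ} (h0 : 0 < s) (h1 : s < 1) {k : ℕ} (hk : 1 ≤ k) :
    IntegrableOn (fun r : ℝ => r ^ (1 - 2 * s) / (1 + r ^ 2) ^ k) (Ioi 0) := by
  have m : Measurable fun r : ℝ => r ^ (1 - 2 * s) / (1 + r ^ 2) ^ k := by fun_prop
  rw [← Ioc_union_Ioi_eq_Ioi zero_le_one]
  refine IntegrableOn.union ?_ ?_
  · refine (intervalIntegral.intervalIntegrable_rpow' (r := 1 - 2 * s) (a := 0) (b := 1)
      (by linarith only [h1])).1.mono' m.aestronglyMeasurable ?_
    filter_upwards [ae_restrict_mem measurableSet_Ioc] with r hr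
    have := hr.1
    rw [Real.norm_of_nonneg (by positivity)]
    exact div_le_self (by positivity) (one_le_pow₀ (by linarith only [sq_nonneg r]))
  · refine (integrableOn_Ioi_rpow_of_lt (a := -1 - 2 * s) (by linarith) one_pos).mono'
      m.aestronglyMeasurable ?_
    filter_upwards [ae_restrict_mem measurableSet_Ioi] with r hr
    have hr0 : 0 < r := one_pos.trans hr
    rw [Real.norm_of_nonneg (by positivity), div_le_iff₀ (by positivity),
      show 1 - 2 * s = -1 - 2 * s + (2 : ℕ) by push_cast; ring, Real.rpow_add_natCast hr0.ne']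
    gcongr
    exact (by linarith only [h0, h1] : r ^ 2 ≤ 1 + r ^ 2).trans (le_self_pow₀ (by linarith only [sq_nonneg r]) (by omega))

theorem MM_pos {s : ℝ} (h0 : 0 < s) (h1 : s < 1) {k : ℕ} (hk : 1 ≤ k) : 0 < MM s k := by
  rw [MM, setIntegral_pos_iff_support_of_nonneg_ae _ (intM h0 h1 hk)]
  · rw [inter_eq_right.2 fun r hr => ?_]
    · simp
    · have hr : 0 < r := hr
      exact Function.mem_support.2 (by positivity)
  · filter_upwards [ae_restrict_mem measurableSet_Ioi] with r (hr : 0 < r)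
    positivity

theorem int_mm {s : ℝ} (h0 : 0 < s) (h1 : s < 1) (A q b : ℝ) :
    IntegrableOn (mm s A q b) (Ioi 0) :=
  (((intM h0 h1 le_rfl).const_mul _).add ((intM h0 h1 one_le_two).const_mul _)).sub
    ((intM h0 h1 (by norm_num)).const_mul _)

theorem integral_mm {s : ℝ} (h0 : 0 < s) (h1 : s < 1) (A q b : ℝ) :
    ∫ r in Ioi 0, mm s A q b r = (A + q) * MM s 1 + q * MM s 2 - 4 * b ^ 2 * MM s 3 := by
  unfold mm
  rw [integral_sub _ ((intM h0 h1 (by norm_num)).const_mul _),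
    integral_add ((intM h0 h1 le_rfl).const_mul _)
    ((intM h0 h1 one_le_two).const_mul _), integral_const_mul, integral_const_mul,
    integral_const_mul]
  · rfl
  · exact ((intM h0 h1 le_rfl).const_mul _).add ((intM h0 h1 one_le_two).const_mul _)

theorem intB {s ε C : ℝ} (h0 : 0 < s) (hε : 0 < ε) {f : ℝ → ℝ} (hf : Measurable f)
    (hb : ∀ t, ε < t → |f t| ≤ C) : IntegrableOn (fun t => f t * t ^ (-1 - 2 * s)) (Ioi ε) :=
  (integrableOn_Ioi_rpow_of_lt (by linarith) hε).bdd_mul (c := C) hf.aestronglyMeasurable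
    ((ae_restrict_mem measurableSet_Ioi).mono hb)

theorem gg_bd {s A v : ℝ} (h0 : 0 < s) (hA : 0 ≤ A) (hv : v ≤ 2) : |gg s A v| ≤ (A + 2) * 2 ^ s := by
  have h1 : 0 ≤ max v 0 := le_max_right _ _
  have h2 : max v 0 ≤ 2 := max_le hv zero_le_two
  rw [gg, abs_of_nonneg (by positivity)]
  gcongr

theorem gg_meas (s A : ℝ) : Measurable (gg s A) := by
  unfold gg; fun_prop

theorem oo_bd {A q b r : ℝ} (hA : 0 ≤ A) (hq : 0 < q) (hq1 : q ≤ 1) (hb : |b| ≤ 1) (hr : 0 < r) :
    |oo A q b r| ≤ ((A + 1) / q + 6) * (r / (1 + r ^ 2)) := by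
  have hb2 : b ^ 2 ≤ 1 := by rwa [sq_le_one_iff_abs_le_one]
  have h1 : q ≤ SS q b r := Real.le_sqrt_of_sq_le (by linarith only [hq, hq1, sq_nonneg (b * r), sq_nonneg r, sq_nonneg (b * r), mul_nonneg_of_nonpos_of_nonpos (Mathlib.Tactic.Linarith.sub_nonpos_of_le (sq_nonneg r)) (le_of_lt (Mathlib.Tactic.Linarith.sub_neg_of_lt hq)), mul_nonneg_of_nonpos_of_nonpos (le_of_lt (Mathlib.Tactic.Linarith.sub_neg_of_lt hq)) (Mathlib.Tactic.Linarith.sub_nonpos_of_le hq1)])
  have h2 : SS q b r ≤ 2 * (1 + r ^ 2) :=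
    Real.sqrt_le_iff.2 ⟨by positivity, by linarith only [hq1, hb2, sq_nonneg r, sq_nonneg (r ^ 2), sq_nonneg r, sq_nonneg (r ^ (2 : ℕ)), mul_nonneg_of_nonpos_of_nonpos (Mathlib.Tactic.Linarith.sub_nonpos_of_le (sq_nonneg r)) (Mathlib.Tactic.Linarith.sub_nonpos_of_le hq1), mul_nonneg_of_nonpos_of_nonpos (Mathlib.Tactic.Linarith.sub_nonpos_of_le (sq_nonneg r)) (Mathlib.Tactic.Linarith.sub_nonpos_of_le hb2)]⟩
  have h3 := hq.trans_le h1
  have e : oo A q b r = (A / SS q b r + 3 * SS q b r / (1 + r ^ 2) ^ 2 +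
      b ^ 2 * r ^ 2 / (1 + r ^ 2) ^ 2 / SS q b r) * (r / (1 + r ^ 2)) := by
    unfold oo; field_simp; ring
  rw [e, abs_of_nonneg (by positivity)]
  refine mul_le_mul_of_nonneg_right ?_ (by positivity)
  have a1 : A / SS q b r ≤ A / q := by gcongr
  have a2 : 3 * SS q b r / (1 + r ^ 2) ^ 2 ≤ 6 := by
    rw [div_le_iff₀ (by positivity)]; linarith only [h2, sq_nonneg r, sq_nonneg (r ^ 2), sq_nonneg r, sq_nonneg (r ^ (2 : ℕ))]
  have a3 : b ^ 2 * r ^ 2 / (1 + r ^ 2) ^ 2 / SS q b r ≤ 1 / q := by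
    gcongr
    rw [div_le_one (by positivity)]; linarith only [hb2, sq_nonneg r, sq_nonneg (r ^ 2), sq_nonneg r, sq_nonneg (r ^ (2 : ℕ)), mul_nonneg_of_nonpos_of_nonpos (Mathlib.Tactic.Linarith.sub_nonpos_of_le (sq_nonneg r)) (Mathlib.Tactic.Linarith.sub_nonpos_of_le hb2)]
  rw [add_div A]
  linarith only [a1, a2, a3]

theorem int_oo {s A q b ρ : ℝ} (h0 : 0 < s) (hA : 0 ≤ A) (hq : 0 < q) (hq1 : q ≤ 1) (hb : |b| ≤ 1)
    (hρ : 0 < ρ) : IntegrableOn (fun r => oo A q b r * r ^ (-1 - 2 * s)) (Ioi ρ) := by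
  refine intB h0 hρ (C := (A + 1) / q + 6) (by unfold oo SS; fun_prop) fun r hr => ?_
  have hr0 := hρ.trans hr
  refine (oo_bd hA hq hq1 hb hr0).trans (mul_le_of_le_one_right (by positivity) ?_)
  rw [div_le_one (by positivity)]
  linarith only [hρ, hr, sq_nonneg (r - 1), sq_nonneg (r - (1 : ℝ))]

theorem ray2 {s A q b ε : ℝ} (h0 : 0 < s) (h1 : s < 1) (hA : 0 ≤ A) (hq : 0 < q) (hq1 : q ≤ 1)
    (hb : |b| ≤ 1) (hε : 0 < ε) (hv : q / 2 ≤ q - 2 * b * ε - ε ^ 2) :
    ∃ R, |R| ≤ (A + 6) * ((2 / q) ^ (2 - 2 * s) / (2 - 2 * s)) * ε ^ (2 - 2 * s) ∧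
      ∫ t in Ioi ε, gg s A (q - 2 * b * t - t ^ 2) * t ^ (-1 - 2 * s) =
        (A + q) * (ε ^ (-2 * s) * (q - 2 * b * ε - ε ^ 2) ^ s) / (2 * s) -
        (∫ r in Ioi 0, mm s A q b r) + R -
        b * ∫ r in Ioi (ε / √(q - 2 * b * ε - ε ^ 2)), oo A q b r * r ^ (-1 - 2 * s) := by
  have hv0 : 0 < q - 2 * b * ε - ε ^ 2 := by linarith only [hq, hv]
  have hb2 : b ^ 2 ≤ 1 := by rwa [sq_le_one_iff_abs_le_one]
  rw [ray h0 hq hε hv0]
  have e1 : (ε / √(q - 2 * b * ε - ε ^ 2)) ^ (-1 - 2 * s + 1) =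
      ε ^ (-2 * s) * (q - 2 * b * ε - ε ^ 2) ^ s := by
    rw [Real.div_rpow hε.le (Real.sqrt_nonneg _), Real.sqrt_eq_rpow, ← Real.rpow_mul hv0.le,
      div_eq_mul_inv, ← Real.rpow_neg hv0.le]
    congr 2 <;> ring
  have e2 : ε / √(q - 2 * b * ε - ε ^ 2) ≤ 2 / q * ε := by
    have : q / 2 ≤ √(q - 2 * b * ε - ε ^ 2) := Real.le_sqrt_of_sq_le
      (by linarith only [mul_le_mul_of_nonneg_left hq1 hq.le, hv, hq])
    calc _ ≤ ε / (q / 2) := by gcongr
      _ = _ := by field_simp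
  rw [← e1]
  have hρ := div_pos hε (Real.sqrt_pos.2 hv0)
  generalize ε / √(q - 2 * b * ε - ε ^ 2) = ρ at e2 hρ
  have im := int_mm h0 h1 A q b
  refine ⟨∫ r in (0 : ℝ)..ρ, mm s A q b r, ?_, ?_⟩
  · refine (intervalIntegral.norm_integral_le_of_norm_le hρ.le (f := mm s A q b)
      (g := fun r => (A + 6) * r ^ (1 - 2 * s)) (.of_forall fun r hr => ?_)
      ((intervalIntegral.intervalIntegrable_rpow' (by linarith only [h1])).const_mul _)).trans ?_
    · have hr0 := hr.1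
      have a : ∀ k : ℕ, 0 ≤ r ^ (1 - 2 * s) / (1 + r ^ 2) ^ k ∧
          r ^ (1 - 2 * s) / (1 + r ^ 2) ^ k ≤ r ^ (1 - 2 * s) := fun k =>
        ⟨by positivity, div_le_self (by positivity)
          (one_le_pow₀ (le_add_of_nonneg_right (sq_nonneg r)))⟩
      obtain ⟨a1, a2⟩ := a 1
      obtain ⟨a3, a4⟩ := a 2
      obtain ⟨a5, a6⟩ := a 3
      rw [Real.norm_eq_abs, abs_le, mm]
      have f1 := mul_nonneg hA a1
      have f2 := mul_le_mul_of_nonneg_left a2 hA
      have f3 := mul_nonneg hq.le a1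
      have f4 := mul_le_mul_of_nonneg_right hq1 a1
      have f5 := mul_nonneg hq.le a3
      have f6 := mul_le_mul_of_nonneg_right hq1 a3
      have f7 := mul_nonneg (sq_nonneg b) a5
      have f8 := mul_le_mul_of_nonneg_right hb2 a5
      constructor <;> linarith only [f1, f2, f3, f4, f5, f6, f7, f8, a1, a2, a4, a6]
    · rw [intervalIntegral.integral_const_mul, integral_rpow (Or.inl (by linarith only [h1])),
        Real.zero_rpow (by linarith only [h1]), sub_zero, show 1 - 2 * s + 1 = 2 - 2 * s by ring, mul_assoc,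
        div_mul_eq_mul_div, ← Real.mul_rpow (by positivity) hε.le]
      have : 0 < 2 - 2 * s := by linarith only [h1]
      gcongr
  · have i1 := integrableOn_Ioi_rpow_of_lt (a := -1 - 2 * s) (by linarith only [h0]) hρ
    have i2 := im.mono_set (Ioi_subset_Ioi hρ.le)
    have i3 := int_oo h0 hA hq hq1 hb hρ
    rw [← intervalIntegral.integral_Ioi_sub_Ioi im hρ.le, setIntegral_congr_fun measurableSet_Ioi
      (g := fun r => (A + q) * r ^ (-1 - 2 * s) - mm s A q b r - b * (oo A q b r * r ^ (-1 - 2 * s))),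
      integral_sub _ (i3.const_mul _), integral_sub (i1.const_mul _) i2,
      integral_const_mul, integral_const_mul, integral_Ioi_rpow_of_lt (by linarith only [h0]) hρ]
    · have := h0.ne'
      rw [show -1 - 2 * s + 1 = -(2 * s) by ring]
      field_simp
      ring
    · exact (i1.const_mul _).sub i2
    · intro r hr
      have hr0 := hρ.trans hr
      simp only [mm, ee]
      rw [show 1 - 2 * s = -1 - 2 * s + (2 : ℕ) by push_cast; ring, Real.rpow_add_natCast hr0.ne']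
      field_simp
      ring

theorem pow_two_sided {s x : ℝ} (h0 : 0 < s) (h1 : s < 1) (hx : -1 / 2 ≤ x) :
    |(1 + x) ^ s - 1 - s * x| ≤ 2 * x ^ 2 := by
  have a1 := rpow_one_add_le_one_add_mul_self (s := x) (by linarith only [h0, h1, hx]) h0.le h1.le
  have hp : 0 < 1 + x := by linarith
  have a2 := Real.add_one_le_exp (Real.log (1 + x) * s)
  rw [← Real.rpow_def_of_pos hp] at a2
  have a3 := Real.one_sub_inv_le_log_of_pos hp
  have a4 : x - 2 * x ^ 2 ≤ 1 - (1 + x)⁻¹ := by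
    rw [le_sub_comm, inv_le_iff_one_le_mul₀ hp]
    linarith only [hx, sq_nonneg x, mul_nonneg_of_nonpos_of_nonpos (Mathlib.Tactic.Linarith.sub_nonpos_of_le (sq_nonneg x)) (Mathlib.Tactic.Linarith.sub_nonpos_of_le hx)]
  rw [abs_le]
  constructor <;> linarith only [a2, h1, h0, a3, a4, a1, sq_nonneg x, mul_nonneg_of_nonpos_of_nonpos (Mathlib.Tactic.Linarith.sub_nonpos_of_le (sq_nonneg x)) (le_of_lt (Mathlib.Tactic.Linarith.sub_neg_of_lt h1)), mul_nonneg_of_nonpos_of_nonpos (le_of_lt (Mathlib.Tactic.Linarith.sub_neg_of_lt h0)) (Mathlib.Tactic.Linarith.sub_nonpos_of_le a3), mul_nonneg_of_nonpos_of_nonpos (le_of_lt (Mathlib.Tactic.Linarith.sub_neg_of_lt h0)) (Mathlib.Tactic.Linarith.sub_nonpos_of_le a4), sq_nonneg x]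

theorem spd_a {q b ε : ℝ} (hq1 : q ≤ 1) (hb : |b| ≤ 1) (hε : 0 < ε) (hε1 : ε ≤ q / 6) :
    b * ε ≤ ε ∧ -ε ≤ b * ε ∧ ε ^ 2 ≤ ε / 6 := by
  obtain ⟨b1, b2⟩ := abs_le.1 hb
  have c1 := mul_le_mul_of_nonneg_right b1 hε.le
  have c2 := mul_le_mul_of_nonneg_right b2 hε.le
  have c3 := mul_le_mul_of_nonneg_left (show ε ≤ 1 / 6 by linarith only [hq1, hε1]) hε.le
  exact ⟨by linarith only [c2], by linarith only [c1], by linarith only [c3]⟩

theorem JJ_est {s A q : ℝ} (h0 : 0 < s) (h1 : s < 1) (hA : 0 ≤ A) (hq : 0 < q) (hq1 : q ≤ 1) :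
    ∃ C, ∀ b ε, |b| ≤ 1 → 0 < ε → ε ≤ q / 6 → |JJ s A q b ε -
      2 * ((A + q) * MM s 1 + q * MM s 2 - 4 * b ^ 2 * MM s 3)| ≤ C * ε ^ (2 - 2 * s) := by
  refine ⟨(A + q) * (q ^ s * (38 / q ^ 2)) / (2 * s) +
    2 * ((A + 6) * ((2 / q) ^ (2 - 2 * s) / (2 - 2 * s))) +
    ((A + 1) / q + 6) * 2 ^ (2 * s) * (16 / q ^ 3), fun b ε hb hε hε1 => ?_⟩
  have hb' : |-b| ≤ 1 := by rwa [abs_neg]
  obtain ⟨c1, c2, c3⟩ := spd_a hq1 hb hε hε1
  have c4 := sq_nonneg ε
  have c5 : q ^ 2 ≤ q := by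
    have := mul_le_mul_of_nonneg_left hq1 hq.le
    linarith only [this]
  have v1 : q / 2 ≤ q - 2 * b * ε - ε ^ 2 := by linarith only [c1, c3, hε1, hq]
  have v2 : q / 2 ≤ q - 2 * -b * ε - ε ^ 2 := by linarith only [c2, c3, hε1, hq]
  obtain ⟨R1, r1, e1⟩ := ray2 h0 h1 hA hq hq1 hb hε v1
  obtain ⟨R2, r2, e2⟩ := ray2 h0 h1 hA hq hq1 hb' hε v2
  have i1 : ∀ b : ℝ, |b| ≤ 1 → IntegrableOn
      (fun t => gg s A (q - 2 * b * t - t ^ 2) * t ^ (-1 - 2 * s)) (Ioi ε) := fun b hb =>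
    intB h0 hε ((gg_meas s A).comp (by fun_prop)) fun t _ => gg_bd h0 hA
      (by linarith only [sq_nonneg (t + b), (sq_le_one_iff_abs_le_one b).2 hb, hq1])
  have i0 := (integrableOn_Ioi_rpow_of_lt (a := -1 - 2 * s) (by linarith only [h0]) hε).const_mul
    (2 * gg s A q)
  have em : mm s A q (-b) = mm s A q b := by funext r; simp [mm]
  have eo : oo A q (-b) = oo A q b := by funext r; simp [oo, SS]
  rw [em, eo] at e2
  have E : ε ^ (-2 * s) * ε ^ 2 = ε ^ (2 - 2 * s) := by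
    rw [← Real.rpow_add_natCast hε.ne']; congr 1; push_cast; ring
  have hE : 0 < ε ^ (-2 * s) := by positivity
  have p1 : |2 * q ^ s - (q - 2 * b * ε - ε ^ 2) ^ s - (q - 2 * -b * ε - ε ^ 2) ^ s| ≤
      q ^ s * (38 / q ^ 2) * ε ^ 2 := by
    have a : ∀ b : ℝ, |b| ≤ 1 → ∃ R, |R| ≤ 18 * (ε / q) ^ 2 ∧ (q - 2 * b * ε - ε ^ 2) ^ s =
        q ^ s * (1 + s * ((-2 * b * ε - ε ^ 2) / q) + R) := fun b hb => by
      obtain ⟨d1, d2, -⟩ := spd_a hq1 hb hε hε1
      have a1 : -1 / 2 ≤ (-2 * b * ε - ε ^ 2) / q := by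
        rw [le_div_iff₀ hq]; linarith only [d1, c3, hε1, hq]
      refine ⟨_, (pow_two_sided h0 h1 a1).trans ?_, ?_⟩
      · have : (-2 * b * ε - ε ^ 2) ^ 2 ≤ (3 * ε) ^ 2 :=
          sq_le_sq' (by linarith only [d1, c3, hε]) (by linarith only [d2, c4, hε])
        rw [div_pow, div_pow, ← mul_div_assoc, ← mul_div_assoc]
        gcongr ?_ / _
        linarith only [this]
      · rw [show q - 2 * b * ε - ε ^ 2 = q * (1 + (-2 * b * ε - ε ^ 2) / q) by field_simp; ring,
          Real.mul_rpow hq.le (by linarith only [a1])]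
        ring
    obtain ⟨S1, s1, a1⟩ := a b hb
    obtain ⟨S2, s2, a2⟩ := a (-b) hb'
    rw [a1, a2, show 2 * q ^ s - q ^ s * (1 + s * ((-2 * b * ε - ε ^ 2) / q) + S1) -
      q ^ s * (1 + s * ((-2 * -b * ε - ε ^ 2) / q) + S2) =
      q ^ s * (2 * (s * q) * (ε / q) ^ 2 - S1 - S2) by field_simp; ring, abs_mul,
      abs_of_pos (by positivity), mul_assoc (q ^ s), show 38 / q ^ 2 * ε ^ 2 = 38 * (ε / q) ^ 2 by ring]
    gcongr
    have a3 : 0 ≤ s * q * (ε / q) ^ 2 := by positivity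
    have a4 : s * q * (ε / q) ^ 2 ≤ (ε / q) ^ 2 :=
      mul_le_of_le_one_left (by positivity) (mul_le_one₀ h1.le hq.le hq1)
    rw [abs_le] at s1 s2 ⊢
    constructor <;> linarith only [s1.1, s1.2, s2.1, s2.2, a3, a4]
  have p2 : |(∫ r in Ioi (ε / √(q - 2 * b * ε - ε ^ 2)), oo A q b r * r ^ (-1 - 2 * s)) -
      ∫ r in Ioi (ε / √(q - 2 * -b * ε - ε ^ 2)), oo A q b r * r ^ (-1 - 2 * s)| ≤
      ((A + 1) / q + 6) * 2 ^ (2 * s) * (16 / q ^ 3) * ε ^ (2 - 2 * s) := by
    have w1 := Real.sq_sqrt (by linarith only [v1, hq] : 0 ≤ q - 2 * b * ε - ε ^ 2)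
    have w2 := Real.sq_sqrt (by linarith only [v2, hq] : 0 ≤ q - 2 * -b * ε - ε ^ 2)
    have w3 : q / 2 ≤ √(q - 2 * b * ε - ε ^ 2) :=
      Real.le_sqrt_of_sq_le (by linarith only [c5, v1, hq])
    have w4 : q / 2 ≤ √(q - 2 * -b * ε - ε ^ 2) :=
      Real.le_sqrt_of_sq_le (by linarith only [c5, v2, hq])
    generalize √(q - 2 * b * ε - ε ^ 2) = x at w1 w3
    generalize √(q - 2 * -b * ε - ε ^ 2) = y at w2 w4
    have hx : 0 < x := by linarith only [w3, hq]
    have hy : 0 < y := by linarith only [w4, hq]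
    have x2 : ε / 2 ≤ ε / x := div_le_div_of_nonneg_left hε.le hx
      ((pow_le_pow_iff_left₀ hx.le zero_le_two two_ne_zero).1
        (by linarith only [w1, c2, c4, hε1, hq1]))
    have y2 : ε / 2 ≤ ε / y := div_le_div_of_nonneg_left hε.le hy
      ((pow_le_pow_iff_left₀ hy.le zero_le_two two_ne_zero).1
        (by linarith only [w2, c1, c4, hε1, hq1]))
    rw [intervalIntegral.integral_Ioi_sub_Ioi' (int_oo h0 hA hq hq1 hb (by positivity))
      (int_oo h0 hA hq hq1 hb (by positivity))]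
    refine (intervalIntegral.norm_integral_le_of_norm_le_const
      (f := fun r => oo A q b r * r ^ (-1 - 2 * s)) (C := ((A + 1) / q + 6) * (ε / 2) ^ (-2 * s)) fun r hr => ?_).trans ?_
    · have a1 : ε / 2 < r := (le_min x2 y2).trans_lt hr.1
      have hr0 : 0 < r := by linarith only [a1, hε]
      rw [norm_mul, Real.norm_eq_abs, Real.norm_of_nonneg (by positivity)]
      calc _ ≤ ((A + 1) / q + 6) * r * r ^ (-1 - 2 * s) := by
            gcongr
            refine (oo_bd hA hq hq1 hb hr0).trans ?_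
            gcongr
            exact div_le_self hr0.le (le_add_of_nonneg_right (sq_nonneg r))
        _ = ((A + 1) / q + 6) * r ^ (-2 * s) := by
            rw [mul_assoc, ← Real.rpow_one_add' hr0.le (by linarith only [h0])]; congr 2; ring
        _ ≤ _ := by
            gcongr _ * ?_
            exact Real.rpow_le_rpow_of_nonpos (by positivity) a1.le (by linarith only [h0])
    · have a1 : |ε / y - ε / x| ≤ 16 / q ^ 3 * ε ^ 2 := by
        rw [show ε / y - ε / x = ε * (-4 * b * ε) / (x * y * (x + y)) by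
          rw [show -4 * b * ε = x ^ 2 - y ^ 2 by linarith only [w1, w2]]; field_simp; ring, abs_div,
          abs_of_pos (by positivity : 0 < x * y * (x + y))]
        calc _ ≤ 4 * ε ^ 2 / (q / 2 * (q / 2) * (q / 2 + q / 2)) := by
              gcongr
              rw [abs_le]
              constructor <;> linarith only [mul_le_mul_of_nonneg_left c1 hε.le,
                mul_le_mul_of_nonneg_left c2 hε.le]
          _ = _ := by field_simp; ring
      calc _ ≤ ((A + 1) / q + 6) * (ε / 2) ^ (-2 * s) * (16 / q ^ 3 * ε ^ 2) := by gcongr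
        _ = _ := by
          rw [← E, Real.div_rpow hε.le zero_le_two, neg_mul, Real.rpow_neg zero_le_two]
          field_simp
  simp only [JJ, sub_mul]
  rw [integral_sub (by exact i0.sub (i1 b hb)) (i1 _ hb'), integral_sub i0 (i1 b hb), e1, e2,
    integral_const_mul, integral_Ioi_rpow_of_lt (by linarith only [h0]) hε, integral_mm h0 h1]
  generalize (∫ r in Ioi (ε / √(q - 2 * b * ε - ε ^ 2)), oo A q b r * r ^ (-1 - 2 * s)) = O1 at p2
  generalize (∫ r in Ioi (ε / √(q - 2 * -b * ε - ε ^ 2)), oo A q b r * r ^ (-1 - 2 * s)) = O2 at p2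
  generalize (q - 2 * b * ε - ε ^ 2) ^ s = P1 at p1
  generalize (q - 2 * -b * ε - ε ^ 2) ^ s = P2 at p1
  have p3 : |(A + q) / (2 * s) * ε ^ (-2 * s) * (2 * q ^ s - P1 - P2)| ≤
      (A + q) * (q ^ s * (38 / q ^ 2)) / (2 * s) * ε ^ (2 - 2 * s) := by
    rw [abs_mul, abs_of_nonneg (by positivity), ← E]
    calc _ ≤ (A + q) / (2 * s) * ε ^ (-2 * s) * (q ^ s * (38 / q ^ 2) * ε ^ 2) := by gcongr
      _ = _ := by ring
  have p4 : |b * (O1 - O2)| ≤
      ((A + 1) / q + 6) * 2 ^ (2 * s) * (16 / q ^ 3) * ε ^ (2 - 2 * s) := by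
    rw [abs_mul]; exact (mul_le_of_le_one_left (abs_nonneg _) hb).trans p2
  rw [gg, max_eq_left hq.le, show -1 - 2 * s + 1 = -2 * s by ring]
  refine le_trans (le_of_eq (congrArg _ (?_ : _ = (A + q) / (2 * s) * ε ^ (-2 * s) *
    (2 * q ^ s - P1 - P2) - R1 - R2 + b * (O1 - O2)))) ?_
  · have := h0.ne'
    field_simp
    ring
  · rw [abs_le] at p3 p4 r1 r2 ⊢
    constructor <;> linarith only [p3.1, p3.2, r1.1, r1.2, r2.1, r2.2, p4.1, p4.2]

end Pool.Agent.Work.MP_49e099_an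
end

-- merged part: Pool.Agent.Work.MP_49e099_an.Main
section
-- merged part: Pool.Agent.Work.MP_49e099_an.Polar
section
/-! Polar coordinates and the fractional Laplacian of the profile on the unit ball. -/

namespace Pool.Agent.Work.MP_49e099_an

open MeasureTheory Set Filter Topology Metric Module
open scoped RealInnerProductSpace

variable {E : Type} [NormedAddCommGroup E] [InnerProductSpace ℝ E] [FiniteDimensional ℝ E]
  [MeasurableSpace E] [BorelSpace E] [Nontrivial E]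

theorem polar {F : E → ℝ} (hF : Integrable F) :
    Integrable (fun θ : sphere (0 : E) 1 => ∫ t in Ioi (0 : ℝ), t ^ (finrank ℝ E - 1) * F (t • θ.1))
      (volume : Measure E).toSphere ∧
    ∫ x, F x = ∫ θ : sphere (0 : E) 1, ∫ t in Ioi (0 : ℝ), t ^ (finrank ℝ E - 1) * F (t • θ.1)
      ∂volume ∂(volume : Measure E).toSphere := by
  have mp := (volume : Measure E).measurePreserving_homeomorphUnitSphereProd
  have e : (fun p : sphere (0 : E) 1 × Ioi (0 : ℝ) => F (p.2.1 • p.1.1)) ∘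
      homeomorphUnitSphereProd E = F ∘ Subtype.val := by
    funext x
    have : ‖x.1‖ ≠ 0 := norm_ne_zero_iff.2 x.2
    simp [smul_smul, this]
  have i1 : Integrable (fun p : sphere (0 : E) 1 × Ioi (0 : ℝ) => F (p.2.1 • p.1.1))
      ((volume : Measure E).toSphere.prod (.volumeIoiPow (finrank ℝ E - 1))) := by
    rw [← mp.integrable_comp_emb (Homeomorph.measurableEmbedding _), e,
      ← integrableOn_iff_comap_subtypeVal (measurableSet_singleton _).compl]
    exact hF.integrableOn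
  have e2 : ∀ θ : sphere (0 : E) 1, ∫ t : Ioi (0 : ℝ), F (t.1 • θ.1)
      ∂(.volumeIoiPow (finrank ℝ E - 1)) =
      ∫ t in Ioi (0 : ℝ), t ^ (finrank ℝ E - 1) * F (t • θ.1) := fun θ => by
    simp only [Measure.volumeIoiPow, ENNReal.ofReal]
    rw [integral_withDensity_eq_integral_smul,
      integral_subtype_comap measurableSet_Ioi fun a =>
        Real.toNNReal (a ^ (finrank ℝ E - 1)) • F (a • θ.1),
      setIntegral_congr_fun measurableSet_Ioi fun x hx => ?_]
    · rw [NNReal.smul_def, Real.coe_toNNReal _ (pow_nonneg hx.out.le _), smul_eq_mul]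
    · exact (measurable_subtype_coe.pow_const _).real_toNNReal
  simp only [← e2]
  refine ⟨i1.integral_prod_left, ?_⟩
  rw [← integral_prod _ i1, ← mp.integral_comp (Homeomorph.measurableEmbedding _)]
  refine Eq.trans ?_ (congrArg (integral _) e.symm)
  refine Eq.trans ?_ (integral_subtype_comap (measurableSet_singleton _).compl F).symm
  rw [restrict_compl_singleton]

/-- second moment on the sphere -/
noncomputable def QQ (x : E) : ℝ :=
  ∫ θ : sphere (0 : E) 1, ⟪x, θ.1⟫ ^ 2 ∂(volume : Measure E).toSphere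

omit [Nontrivial E] in
theorem int_QQ (x : E) : Integrable (fun θ : sphere (0 : E) 1 => ⟪x, θ.1⟫ ^ 2)
    (volume : Measure E).toSphere :=
  Continuous.integrable_of_hasCompactSupport (by fun_prop) (HasCompactSupport.of_compactSpace _)

theorem QQ_ball (x : E) :
    ∫ h in ball (0 : E) 1, ⟪x, h⟫ ^ 2 = QQ x / ((finrank ℝ E - 1 + 2 : ℕ) + 1) := by
  have i : IntegrableOn (fun h : E => ⟪x, h⟫ ^ 2) (ball 0 1) :=
    (ContinuousOn.integrableOn_compact (isCompact_closedBall 0 1) (by fun_prop)).mono_set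
      ball_subset_closedBall
  rw [← integral_indicator measurableSet_ball,
    (polar ((integrable_indicator_iff measurableSet_ball).2 i)).2, QQ, ← integral_div]
  refine integral_congr_ae (.of_forall fun θ => ?_)
  have hθ : ‖θ.1‖ = 1 := by simp
  simp only
  rw [setIntegral_congr_fun measurableSet_Ioi (g := (Iio 1).indicator
    fun t => ⟪x, θ.1⟫ ^ 2 * t ^ (finrank ℝ E - 1 + 2)) fun t (ht : 0 < t) => ?_,
    setIntegral_indicator measurableSet_Iio, Ioi_inter_Iio, ← integral_Ioc_eq_integral_Ioo,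
    ← intervalIntegral.integral_of_le zero_le_one, intervalIntegral.integral_const_mul,
    integral_pow]
  · simp [div_eq_mul_inv]
  · by_cases h : t < 1
    · rw [indicator_of_mem (by simpa [norm_smul, hθ, abs_of_pos ht]),
        indicator_of_mem (mem_Iio.2 h), inner_smul_right]
      ring
    · rw [indicator_of_notMem (by simpa [norm_smul, hθ, abs_of_pos ht] using h),
        indicator_of_notMem (mt mem_Iio.1 h), mul_zero]

theorem QQ_congr {x y : E} (h : ‖x‖ = ‖y‖) : QQ x = QQ y := by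
  have e := QQ_ball x
  obtain ⟨R, rfl⟩ : ∃ R : E ≃ₗᵢ[ℝ] E, R x = y := ⟨_, Submodule.reflection_sub h⟩
  have e2 := QQ_ball (R x)
  rw [← R.measurePreserving.setIntegral_preimage_emb R.toHomeomorph.measurableEmbedding,
    R.preimage_ball, map_zero] at e2
  simp only [R.inner_map_map] at e2
  rw [e] at e2
  exact (div_left_inj' (by positivity)).1 e2

theorem QQ_eq (x : E) :
    QQ x = (volume : Measure E).toSphere.real univ / finrank ℝ E * ‖x‖ ^ 2 := by
  have hn : (0 : ℝ) < finrank ℝ E := Nat.cast_pos.2 finrank_pos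
  have e1 : ∑ i, QQ (‖x‖ • stdOrthonormalBasis ℝ E i) =
      (volume : Measure E).toSphere.real univ * ‖x‖ ^ 2 := by
    unfold QQ
    rw [← integral_finsetSum _ fun i _ => int_QQ _, ← smul_eq_mul, ← integral_const]
    refine integral_congr_ae (.of_forall fun θ => ?_)
    simp only [inner_smul_left, mul_pow, ← Finset.mul_sum, OrthonormalBasis.sum_sq_inner_right]
    simp
  rw [Finset.sum_congr rfl fun i _ => QQ_congr (y := x) (by simp [norm_smul])] at e1
  simp only [Finset.sum_const, Finset.card_univ, Fintype.card_fin, nsmul_eq_mul] at e1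
  field_simp
  linarith

theorem fracLap_profile {a s A : ℝ} (h0 : 0 < s) (h1 : s < 1) (hA : 0 ≤ A) {x : E}
    (hx : ‖x‖ < 1) : HasFracLap (finrank ℝ E) a s (fun y : E => gg s A (1 - ‖y‖ ^ 2)) x
      (a * (volume : Measure E).toSphere.real univ * ((A + (1 - ‖x‖ ^ 2)) * MM s 1 +
        (1 - ‖x‖ ^ 2) * MM s 2 - 4 * (‖x‖ ^ 2 / finrank ℝ E) * MM s 3)) := by
  obtain ⟨q, hq⟩ : ∃ q, q = 1 - ‖x‖ ^ 2 := ⟨_, rfl⟩
  have hq0 : 0 < q := by linarith only [hq, h0, hx, h1, norm_nonneg x, mul_pos_of_neg_of_neg (Mathlib.Tactic.Linarith.sub_neg_of_lt h0) (Mathlib.Tactic.Linarith.sub_neg_of_lt hx), mul_pos_of_neg_of_neg (Mathlib.Tactic.Linarith.sub_neg_of_lt h1) (Mathlib.Tactic.Linarith.sub_neg_of_lt hx), mul_nonneg_of_nonpos_of_nonpos (le_of_lt (Mathlib.Tactic.Linarith.sub_neg_of_lt hx)) (Mathlib.Tactic.Linarith.sub_nonpos_of_le (norm_nonneg x))]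
  have hq1 : q ≤ 1 := by linarith only [hq, norm_nonneg x, sq_nonneg ‖x‖]
  have hn : 0 < finrank ℝ E := finrank_pos
  have ep : ∀ t : ℝ, 0 < t → t ^ (finrank ℝ E - 1) * t ^ (-((finrank ℝ E : ℝ) + 2 * s)) =
      t ^ (-1 - 2 * s) := fun t ht => by
    rw [← Real.rpow_natCast, ← Real.rpow_add ht, Nat.cast_pred hn]; congr 1; ring
  let k : ℝ → ℝ → ℝ := fun ε => (Ioi ε).indicator fun t => t ^ (-((finrank ℝ E : ℝ) + 2 * s))
  have ik : ∀ ε > 0, Integrable fun h : E => k ε ‖h‖ := fun ε hε => by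
    rw [integrable_fun_norm_addHaar]
    refine IntegrableOn.congr_fun (f := (Ioi ε).indicator fun t => t ^ (-1 - 2 * s))
      (((integrable_indicator_iff measurableSet_Ioi).2
        (integrableOn_Ioi_rpow_of_lt (by linarith only [h0]) hε)).integrableOn) (fun t ht => ?_)
      measurableSet_Ioi
    by_cases h : t ∈ Ioi ε
    · simp only [k, indicator_of_mem h, smul_eq_mul, ep t ht]
    · simp [k, indicator_of_notMem h]
  let G : ℝ → E → ℝ := fun ε h => (gg s A q - gg s A (1 - ‖x + h‖ ^ 2)) * k ε ‖h‖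
  have iG : ∀ ε > 0, Integrable (G ε) := fun ε hε =>
    (ik ε hε).bdd_mul (c := 2 * ((A + 2) * 2 ^ s))
      (measurable_const.sub ((gg_meas s A).comp (by fun_prop))).aestronglyMeasurable
      (.of_forall fun h => (abs_sub _ _).trans (by
        linarith only [h0, hA, hq1, h1, gg_bd h0 hA (hq1.trans one_le_two),
          gg_bd (v := 1 - ‖x + h‖ ^ 2) h0 hA (by nlinarith [sq_nonneg ‖x + h‖])]))
  have mS : ∀ ε, MeasurableSet {y : E | ε < ‖x - y‖} := fun ε =>
    (isOpen_lt continuous_const (by fun_prop)).measurableSet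
  have eG : ∀ ε, ({y | ε < ‖x - y‖}.indicator fun y : E => (gg s A (1 - ‖x‖ ^ 2) -
      gg s A (1 - ‖y‖ ^ 2)) / ‖x - y‖ ^ ((finrank ℝ E : ℝ) + 2 * s)) =
      fun y => G ε (-x + y) := fun ε => by
    funext y
    have e : ‖-x + y‖ = ‖x - y‖ := by rw [← norm_neg]; congr 1; abel
    simp only [G, k, e, add_neg_cancel_left, hq]
    by_cases h : ε < ‖x - y‖
    · rw [indicator_of_mem (by exact h), indicator_of_mem (by exact h),
        Real.rpow_neg (norm_nonneg _), div_eq_mul_inv]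
    · rw [indicator_of_notMem (by exact h), indicator_of_notMem (by exact h), mul_zero]
  refine ⟨fun ε hε => ?_, ?_⟩
  · rw [← integrable_indicator_iff (mS ε), eG]
    exact (iG ε hε).comp_add_left _
  obtain ⟨C, hC⟩ := JJ_est h0 h1 hA hq0 hq1
  have key : ∀ ε > 0, Integrable (fun θ : sphere (0 : E) 1 => JJ s A q ⟪x, θ.1⟫ ε)
      (volume : Measure E).toSphere ∧ 2 * ∫ h, G ε h =
      ∫ θ : sphere (0 : E) 1, JJ s A q ⟪x, θ.1⟫ ε ∂(volume : Measure E).toSphere := fun ε hε => by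
    have e : ∀ θ : sphere (0 : E) 1, ∫ t in Ioi (0 : ℝ), t ^ (finrank ℝ E - 1) *
        (G ε (t • θ.1) + G ε (-(t • θ.1))) = JJ s A q ⟪x, θ.1⟫ ε := fun θ => by
      have hθ : ‖θ.1‖ = 1 := by simp
      rw [JJ, ← inter_eq_right.2 (Ioi_subset_Ioi hε.le), ← setIntegral_indicator measurableSet_Ioi]
      refine setIntegral_congr_fun measurableSet_Ioi fun t (ht : 0 < t) => ?_
      have n1 : ‖t • θ.1‖ = t := by rw [norm_smul, hθ, mul_one, Real.norm_of_nonneg ht.le]
      simp only [G, k, norm_neg, n1, norm_add_sq_real, inner_neg_right, inner_smul_right]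
      by_cases h : t ∈ Ioi ε
      · rw [indicator_of_mem h, indicator_of_mem h, ← ep t ht,
          show 1 - (‖x‖ ^ 2 + 2 * (t * ⟪x, θ.1⟫) + t ^ 2) = q - 2 * ⟪x, θ.1⟫ * t - t ^ 2 by
            rw [hq]; ring,
          show 1 - (‖x‖ ^ 2 + 2 * -(t * ⟪x, θ.1⟫) + t ^ 2) = q - 2 * -⟪x, θ.1⟫ * t - t ^ 2 by
            rw [hq]; ring]
        ring
      · simp [indicator_of_notMem h]
    have := polar (F := fun h => G ε h + G ε (-h)) ((iG ε hε).add (iG ε hε).comp_neg)
    simp only [e] at this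
    rw [integral_add (iG ε hε) (iG ε hε).comp_neg, integral_neg_eq_self] at this
    exact ⟨this.1, by rw [← this.2]; ring⟩
  rw [← hq, tendsto_iff_norm_sub_tendsto_zero]
  have iF : Integrable (fun θ : sphere (0 : E) 1 => 2 * ((A + q) * MM s 1 + q * MM s 2 -
      4 * ⟪x, θ.1⟫ ^ 2 * MM s 3)) (volume : Measure E).toSphere :=
    Continuous.integrable_of_hasCompactSupport (by fun_prop) (HasCompactSupport.of_compactSpace _)
  have eF : ∫ θ : sphere (0 : E) 1, 2 * ((A + q) * MM s 1 + q * MM s 2 -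
      4 * ⟪x, θ.1⟫ ^ 2 * MM s 3) ∂(volume : Measure E).toSphere =
      2 * ((volume : Measure E).toSphere.real univ * ((A + q) * MM s 1 +
        q * MM s 2 - 4 * (‖x‖ ^ 2 / finrank ℝ E) * MM s 3)) := by
    rw [integral_const_mul, integral_sub (integrable_const _)
      (((int_QQ x).const_mul 4).mul_const _), integral_const, integral_mul_const,
      integral_const_mul, ← QQ, QQ_eq, smul_eq_mul]
    ring
  have lim : Tendsto (fun ε : ℝ => |a| / 2 * (C * ε ^ (2 - 2 * s) *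
      (volume : Measure E).toSphere.real univ)) (𝓝[>] 0) (𝓝 0) := by
    have := (Real.continuousAt_rpow_const 0 (2 - 2 * s) (Or.inr (by linarith only [h1]))).tendsto
    rw [Real.zero_rpow (by linarith only [h1])] at this
    simpa using (((this.const_mul C).mul_const _).const_mul _).mono_left nhdsWithin_le_nhds
  refine squeeze_zero' (.of_forall fun _ => norm_nonneg _) ?_ lim
  filter_upwards [Ioc_mem_nhdsGT (by positivity : 0 < q / 6)] with ε hε
  obtain ⟨k1, k2⟩ := key ε hε.1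
  have b1 := norm_integral_le_of_norm_le_const (μ := (volume : Measure E).toSphere)
    (f := fun θ : sphere (0 : E) 1 => JJ s A q ⟪x, θ.1⟫ ε - 2 * ((A + q) * MM s 1 + q * MM s 2 -
      4 * ⟪x, θ.1⟫ ^ 2 * MM s 3)) (.of_forall fun θ => hC _ ε
      ((abs_real_inner_le_norm _ _).trans (by simpa using hx.le)) hε.1 hε.2)
  rw [integral_sub k1 iF, eF, ← k2, ← mul_sub, norm_mul, Real.norm_two] at b1
  rw [hq, ← integral_indicator (mS ε), eG, integral_add_left_eq_self, ← hq, mul_assoc a, ← mul_sub,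
    norm_mul, Real.norm_eq_abs a]
  nlinarith [abs_nonneg a]

end Pool.Agent.Work.MP_49e099_an
end

-- merged part: Pool.Agent.Work.MP_49e099_an.Main
section
/-! Resonance: testing the equation with the profile. -/

namespace Pool.Agent.Work.MP_49e099_an

open MeasureTheory Set Filter Topology Metric Module

variable {E : Type} [NormedAddCommGroup E] [InnerProductSpace ℝ E] [FiniteDimensional ℝ E]
  [MeasurableSpace E] [BorelSpace E] [Nontrivial E]

theorem exists_eigen {a s : ℝ} (h0 : 0 < s) (h1 : s < 1) (ha : 0 < a) :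
    ∃ c φ : E → ℝ, Continuous c ∧ (∃ M, ∀ x, |c x| ≤ M) ∧ (∀ x ∈ ball (0 : E) 1, 0 < c x) ∧
      (∃ M, ∀ x, |φ x| ≤ M) ∧ (∀ x ∈ ball (0 : E) 1, 0 < φ x) ∧
      IsTest (finrank ℝ E) a s (ball 0 1) φ fun x => c x * φ x := by
  have hn : (0 : ℝ) < finrank ℝ E := Nat.cast_pos.2 finrank_pos
  have m1 := MM_pos h0 h1 le_rfl
  have m2 := MM_pos h0 h1 one_le_two
  have m3 := MM_pos h0 h1 (by norm_num : 1 ≤ 3)
  have hσ : 0 < (volume : Measure E).toSphere.real univ := by
    rw [Measure.toSphere_real_apply_univ]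
    exact mul_pos hn (ENNReal.toReal_pos (measure_ball_pos _ _ one_pos).ne'
      measure_ball_lt_top.ne)
  obtain ⟨A, hA⟩ : ∃ A, A = 4 * MM s 3 / (finrank ℝ E * MM s 1) := ⟨_, rfl⟩
  have hA0 : 0 < A := by rw [hA]; positivity
  obtain ⟨κ, hκ⟩ : ∃ κ, κ = a * (volume : Measure E).toSphere.real univ *
    (MM s 1 + MM s 2 + 4 * MM s 3 / finrank ℝ E) := ⟨_, rfl⟩
  have hκ0 : 0 < κ := by rw [hκ]; positivity
  have q0 : ∀ x : E, 0 ≤ max (1 - ‖x‖ ^ 2) 0 := fun x => le_max_right _ _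
  have q1 : ∀ x : E, max (1 - ‖x‖ ^ 2) 0 ≤ 1 := fun x =>
    max_le (by linarith only [sq_nonneg ‖x‖, sq_nonneg ‖x‖]) zero_le_one
  have q2 : ∀ x ∈ ball (0 : E) 1, 0 < 1 - ‖x‖ ^ 2 := fun x hx => by
    linarith only [hx, norm_nonneg x, mem_ball_zero_iff.1 hx, mul_nonneg_of_nonpos_of_nonpos (Mathlib.Tactic.Linarith.sub_nonpos_of_le (norm_nonneg x)) (le_of_lt (Mathlib.Tactic.Linarith.sub_neg_of_lt (mem_ball_zero_iff.mp hx)))]
  have cq : Continuous fun x : E => max (1 - ‖x‖ ^ 2) 0 := by fun_prop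
  have bc : ∀ x : E, |κ * (max (1 - ‖x‖ ^ 2) 0) ^ (1 - s) / (A + max (1 - ‖x‖ ^ 2) 0)| ≤
      κ * 1 / A := fun x => by
    have := q0 x
    rw [abs_of_nonneg (by positivity)]
    gcongr
    · exact Real.rpow_le_one this (q1 x) (by linarith only [h1])
    · linarith only [this]
  have bφ : ∀ x : E, |gg s A (1 - ‖x‖ ^ 2)| ≤ (A + 2) * 2 ^ s := fun x =>
    gg_bd h0 hA0.le (by linarith only [h0, h1, sq_nonneg ‖x‖, sq_nonneg ‖x‖])
  refine ⟨fun x => κ * (max (1 - ‖x‖ ^ 2) 0) ^ (1 - s) / (A + max (1 - ‖x‖ ^ 2) 0),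
    fun x => gg s A (1 - ‖x‖ ^ 2), ?_, ⟨_, bc⟩, fun x hx => ?_, ⟨_, bφ⟩, fun x hx => ?_, ?_,
    fun x hx => ?_, fun x hx => ?_, κ * 1 / A * ((A + 2) * 2 ^ s), fun x _ => ?_⟩
  · exact (continuous_const.mul (cq.rpow_const fun x => Or.inr (by linarith only [h1]))).div
      (continuous_const.add cq) fun x => (add_pos_of_pos_of_nonneg hA0 (q0 x)).ne'
  · have := q2 x hx
    simp only [max_eq_left this.le]
    positivity
  · have := q2 x hx
    simp only [gg, max_eq_left this.le]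
    positivity
  · exact (continuous_const.add cq).mul (cq.rpow_const fun x => Or.inr h0.le)
  · rw [closure_ball _ one_ne_zero, mem_closedBall_zero_iff, not_le] at hx
    simp only [gg]
    rw [max_eq_right (by linarith only [h0, hx, h1, mul_pos_of_neg_of_neg (Mathlib.Tactic.Linarith.sub_neg_of_lt h0) (Mathlib.Tactic.Linarith.sub_neg_of_lt hx), mul_pos_of_neg_of_neg (Mathlib.Tactic.Linarith.sub_neg_of_lt h1) (Mathlib.Tactic.Linarith.sub_neg_of_lt hx), mul_pos_of_neg_of_neg (Mathlib.Tactic.Linarith.sub_neg_of_lt hx) (Mathlib.Tactic.Linarith.sub_neg_of_lt hx)]), Real.zero_rpow h0.ne', mul_zero]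
  · have h := fracLap_profile (a := a) h0 h1 hA0.le (mem_ball_zero_iff.1 hx)
    have := q2 x hx
    have e : κ * (max (1 - ‖x‖ ^ 2) 0) ^ (1 - s) / (A + max (1 - ‖x‖ ^ 2) 0) *
        gg s A (1 - ‖x‖ ^ 2) = κ * (1 - ‖x‖ ^ 2) := by
      rw [gg, max_eq_left this.le, Real.rpow_sub this, Real.rpow_one]
      field_simp
    simp only [e]
    refine (congrArg _ ?_).mp h
    rw [hκ, hA]
    field_simp
    ring
  · rw [abs_mul]
    exact mul_le_mul (bc x) (bφ x) (abs_nonneg _) (by positivity)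

theorem main {a s : ℝ} (h0 : 0 < s) (h1 : s < 1) (ha : 0 < a) :
    ∃ c : E → ℝ, Continuous c ∧ (∃ M, ∀ x, |c x| ≤ M) ∧ (∀ x ∈ ball (0 : E) 1, 0 < c x) ∧
      OnlyZero (finrank ℝ E) a s (ball 0 1) c := by
  obtain ⟨c, φ, hc, ⟨M, hM⟩, c0, ⟨M', hM'⟩, φ0, hT⟩ := exists_eigen (E := E) h0 h1 ha
  refine ⟨c, hc, ⟨M, hM⟩, c0, fun μ f u lam hμ μ0 hf f0 hl ⟨u0, iu, D0, iD, H⟩ => ?_⟩
  have H := H _ _ hT
  have mφ : ∀ {g : E → ℝ}, IntegrableOn g (ball 0 1) → IntegrableOn (fun x => g x * φ x)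
      (ball 0 1) := fun h => h.mul_bdd hT.1.aestronglyMeasurable (.of_forall hM')
  have i1 := mφ (iu.bdd_mul hc.aestronglyMeasurable (.of_forall hM))
  have i2 : IntegrableOn (fun x => (μ x * (Dsq (finrank ℝ E) a s u x).toReal + lam * f x) * φ x)
      (ball 0 1) := mφ ((iD.mul_of_top_right hμ).add (hf.const_mul lam))
  simp only [add_assoc, add_mul (c _ * u _)] at H
  rw [integral_add i1 i2, setIntegral_congr_fun measurableSet_ball
    (g := fun x => c x * u x * φ x) (fun x _ => by ring), left_eq_add,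
    setIntegral_eq_zero_iff_of_nonneg_ae _ i2, EventuallyEq,
    ae_restrict_iff' measurableSet_ball] at H
  swap
  · rw [EventuallyLE, ae_restrict_iff' measurableSet_ball]
    filter_upwards [μ0, f0] with x a1 a2 hx
    have := a1 hx
    have := a2 hx
    have := φ0 x hx
    simp only [Pi.zero_apply]
    positivity
  have K : ∀ᵐ x, x ∈ ball (0 : E) 1 → (Dsq (finrank ℝ E) a s u x).toReal = 0 ∧ f x = 0 := by
    filter_upwards [μ0, f0, H] with x a1 a2 a3 hx
    have b1 := mul_nonneg (a1 hx).le (ENNReal.toReal_nonneg (a := Dsq (finrank ℝ E) a s u x))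
    have b2 := mul_nonneg hl.le (a2 hx)
    have b3 := (mul_eq_zero.1 (a3 hx)).resolve_right (φ0 x hx).ne'
    exact ⟨(mul_eq_zero.1 (by linarith)).resolve_left (a1 hx).ne',
      (mul_eq_zero.1 (by linarith)).resolve_left hl.ne'⟩
  refine ⟨?_, K.mono fun x h hx => (h hx).2⟩
  have mu : AEMeasurable u := by
    refine ((integrable_indicator_iff measurableSet_ball).2 iu).aemeasurable.congr ?_
    filter_upwards [u0] with x hx
    by_cases h : x ∈ ball (0 : E) 1
    · exact indicator_of_mem h _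
    · rw [indicator_of_notMem h, hx h]
  filter_upwards [u0, D0, K] with x a1 a2 a3
  by_cases hx : x ∈ ball (0 : E) 1
  swap
  · exact a1 hx
  have b1 := ((ENNReal.toReal_eq_zero_iff _).1 (a3 hx).1).resolve_right (a2 hx).ne
  rw [Dsq, lintegral_eq_zero_iff' (by fun_prop)] at b1
  obtain ⟨y, hy, c1, c2⟩ := Measure.exists_mem_of_measure_ne_zero_of_ae
    ((isClosed_closedBall (x := (0 : E)) (ε := 1)).isOpen_compl.measure_ne_zero volume
      (nonempty_compl.2 (NormedSpace.unbounded_univ ℝ E <| · ▸ isBounded_closedBall)))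
    (ae_restrict_of_ae (b1.and u0))
  have hy' : y ∉ ball (0 : E) 1 := fun h => hy (ball_subset_closedBall h)
  have c3 : 0 < ‖x - y‖ := norm_pos_iff.2 (sub_ne_zero.2 fun h => hy' (h ▸ hx))
  simp only [c2 hy', sub_zero, Pi.zero_apply, ENNReal.ofReal_eq_zero] at c1
  by_contra h
  exact absurd c1 (not_le.2 (by positivity))

end Pool.Agent.Work.MP_49e099_an
end
end
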